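import Pool.Agent.Y134.TF.Defs
import Pool.Agent.Y134.TF.Ext
import Pool.Agent.Y134.TH.Span
import Pool.Agent.Y130.MM.Pub

/-!
# Rational structures of representations with forms
-/

set_option autoImplicit false

namespace Pool.Agent.Y134.MR

open Polynomial Module Pool.Agent.Y134.Two Pool.Agent.Y130 Pool.Agent.Y134.TF Pool.Agent.Y134.TH
  TensorProduct

section
variable {K₀ K T V : Type} [Field K₀] [Field K] [Algebra K₀ K] [AddCommGroup T] [Module K T]
  [AddCommGroup V] [Module K₀ V] {Γ : Type} [Group Γ]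

/-- The hypotheses about the form on `T`. -/
structure FormOn (c : Γ → K) (B : T →ₗ[K] T →ₗ[K] K) (τ : Representation K Γ T) : Prop where
  symm : ∀ x y, B x y = B y x
  nondeg : ∀ x, (∀ y, B x y = 0) → x = 0
  act : ∀ g x y, B (τ g x) (τ g y) = (c g) ^ 2 * B x y

/-- A rational structure. -/
structure IsRat (c : Γ → K) (B : T →ₗ[K] T →ₗ[K] K) (τ : Representation K Γ T)
    (b : V →ₗ[K₀] V →ₗ[K₀] K₀) (ρ : Representation K₀ Γ V) (j : V →+ T) : Prop where
  unit : ∀ g, c g ≠ 0
  smul : ∀ (a : K₀) (v : V), j (a • v) = algebraMap K₀ K a • j v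
  span : Submodule.span K (Set.range j) = ⊤
  rank : finrank K T = finrank K₀ V
  form : ∀ x y, B (j x) (j y) = algebraMap K₀ K (b x y)
  equivariant : ∀ g v, τ g (j v) = c g • j (ρ g v)

end

section
variable {K₀ K T V : Type} [Field K₀] [Field K] [Algebra K₀ K] [AddCommGroup T] [Module K T]
  [AddCommGroup V] [Module K₀ V] [FiniteDimensional K₀ V] {Γ : Type} [Group Γ]
  {c : Γ → K} {B : T →ₗ[K] T →ₗ[K] K} {τ : Representation K Γ T}
  {b : V →ₗ[K₀] V →ₗ[K₀] K₀} {ρ : Representation K₀ Γ V} {j : V →+ T}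
  (h : IsRat c B τ b ρ j)

include h in
lemma j_sum (v : V) :
    j v = ∑ i, algebraMap K₀ K ((finBasis K₀ V).repr v i) • j (finBasis K₀ V i) := by
  conv_lhs => rw [← (finBasis K₀ V).sum_repr v]
  rw [map_sum]
  exact Finset.sum_congr rfl fun i _ => h.smul _ _

include h in
/-- A basis of `T`. -/
lemma IsRat.exists_basis : ∃ D : Basis (Fin (finrank K₀ V)) K T,
    ∀ i, D i = j (finBasis K₀ V i) := by
  let u : Fin (finrank K₀ V) → T := fun i => j (finBasis K₀ V i)
  have h1 : ⊤ ≤ Submodule.span K (Set.range u) := by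
    rw [← h.span, Submodule.span_le]
    rintro _ ⟨v, rfl⟩
    rw [SetLike.mem_coe, j_sum h v]
    exact Submodule.sum_mem _ fun i _ => Submodule.smul_mem _ _ (Submodule.subset_span ⟨i, rfl⟩)
  refine ⟨basisOfTopLeSpanOfCardEqFinrank u h1 (by rw [Fintype.card_fin, h.rank]), fun i => ?_⟩
  rw [coe_basisOfTopLeSpanOfCardEqFinrank]

include h in
lemma IsRat.injective {v : V} (hv : j v = 0) : v = 0 := by
  obtain ⟨D, hD⟩ := h.exists_basis
  have h3 : ∑ i, algebraMap K₀ K ((finBasis K₀ V).repr v i) • D i = 0 := by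
    rw [← hv, j_sum h v]
    exact Finset.sum_congr rfl fun i _ => by rw [hD]
  have h4 := Fintype.linearIndependent_iff.1 D.linearIndependent _ h3
  rw [← (finBasis K₀ V).sum_repr v]
  refine Finset.sum_eq_zero fun i _ => ?_
  have h5 := h4 i
  rw [map_eq_zero] at h5
  rw [h5, zero_smul]

include h in
theorem IsRat.form_zero (hF : FormOn c B τ) {x : V} (hx : ∀ y, b x y = 0) : x = 0 := by
  apply h.injective
  apply hF.nondeg _
  intro y
  have hy : y ∈ Submodule.span K (Set.range j) := by rw [h.span]; exact Submodule.mem_top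
  induction hy using Submodule.span_induction with
  | mem y hy =>
    obtain ⟨v, rfl⟩ := hy
    rw [h.form, hx, map_zero]
  | zero => rw [map_zero]
  | add y z _ _ h1 h2 => rw [map_add, h1, h2, add_zero]
  | smul c y _ h1 => rw [map_smul, h1, smul_zero]

include h in
theorem IsRat.form_symm (hF : FormOn c B τ) (x y : V) : b x y = b y x := by
  apply (algebraMap K₀ K).injective
  rw [← h.form, ← h.form]
  exact hF.symm _ _

include h in
theorem IsRat.form_inv (hF : FormOn c B τ) (g : Γ) (x y : V) : b (ρ g x) (ρ g y) = b x y := by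
  apply (algebraMap K₀ K).injective
  rw [← h.form, ← h.form]
  have h1 := hF.act g (j x) (j y)
  rw [h.equivariant, h.equivariant, map_smul, map_smul, LinearMap.smul_apply, smul_eq_mul,
    smul_eq_mul, ← mul_assoc, ← sq] at h1
  exact mul_left_cancel₀ (pow_ne_zero _ (h.unit g)) h1

/-- The normalized operator. -/
noncomputable def nrm (c : Γ → K) (τ : Representation K Γ T) (g : Γ) : Module.End K T :=
  (c g)⁻¹ • τ g

include h in
lemma nrm_j (g : Γ) (v : V) : nrm c τ g (j v) = j (ρ g v) := by
  rw [nrm, LinearMap.smul_apply, h.equivariant, smul_smul, inv_mul_cancel₀ (h.unit g), one_smul]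

include h in
lemma aeval_nrm (g : Γ) (S : K₀[X]) (v : V) :
    (aeval (nrm c τ g) (S.map (algebraMap K₀ K))) (j v) = j ((aeval (ρ g) S) v) := by
  induction S using Polynomial.induction_on' with
  | add p q hp hq =>
    rw [Polynomial.map_add, map_add, map_add, LinearMap.add_apply, LinearMap.add_apply, map_add,
      hp, hq]
  | monomial n a =>
    rw [Polynomial.map_monomial, aeval_monomial, aeval_monomial, Module.End.mul_apply,
      Module.End.mul_apply, Module.algebraMap_end_apply, Module.algebraMap_end_apply, h.smul]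
    congr 1
    induction n with
    | zero => rfl
    | succ n ih =>
      rw [pow_succ', Module.End.mul_apply, ih, pow_succ', Module.End.mul_apply, nrm_j h]

include h in
/-- **Strong irreducibility.** -/
theorem irred_of_good (hF : FormOn c B τ) {g₁ : Γ} {v : V} (hv : GoodVec ρ b g₁ v)
    (Δ : Subgroup Γ) (hΔ : Δ.FiniteIndex) (U : Submodule K T)
    (hst : ∀ g ∈ Δ, ∀ a ∈ U, τ g a ∈ U) : U = ⊥ ∨ U = ⊤ := by
  -- stable subspaces which contain the vector
  have keyA : ∀ U : Submodule K T, (∀ g ∈ Δ, ∀ a ∈ U, τ g a ∈ U) → j v ∈ U → U = ⊤ := by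
    intro U hst hvU
    have h1 := hv.span Δ hΔ
    have h3 : ∀ x : V, j x ∈ U := by
      intro x
      have hx : x ∈ Submodule.span K₀ {x | ∃ g ∈ Δ, x = ρ g v} := by
        rw [h1]
        exact Submodule.mem_top
      induction hx using Submodule.span_induction with
      | mem x hx =>
        obtain ⟨g, hg, rfl⟩ := hx
        rw [← nrm_j h]
        exact U.smul_mem _ (hst g hg _ hvU)
      | zero => rw [map_zero]; exact U.zero_mem
      | add x y _ _ hx hy => rw [map_add]; exact U.add_mem hx hy
      | smul c x _ hx => rw [h.smul]; exact U.smul_mem _ hx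
    rw [eq_top_iff, ← h.span, Submodule.span_le]
    rintro _ ⟨x, rfl⟩
    exact h3 x
  by_cases hvU : j v ∈ U
  · exact Or.inr (keyA U hst hvU)
  left
  have hB : ∀ u ∈ U, B (j v) u = 0 := by
    intro u hu
    obtain ⟨m, hm, -, hmΔ⟩ := Δ.exists_pow_mem_of_index_ne_zero hΔ.index_ne_zero g₁
    obtain ⟨S, κ, hκ, hS⟩ := hv.proj m hm
    have h1 : ∀ t : T, (aeval (nrm c τ (g₁ ^ m)) (S.map (algebraMap K₀ K))) t
        = (algebraMap K₀ K κ * B (j v) t) • j v := by
      intro t
      have ht : t ∈ Submodule.span K (Set.range j) := by rw [h.span]; exact Submodule.mem_top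
      induction ht using Submodule.span_induction with
      | mem x hx =>
        obtain ⟨x, rfl⟩ := hx
        rw [aeval_nrm h, map_pow, hS, h.smul, h.form, map_mul]
      | zero => rw [map_zero, map_zero, mul_zero, zero_smul]
      | add x y _ _ hx hy => rw [map_add, hx, hy, map_add, mul_add, add_smul]
      | smul c x _ hx =>
        rw [map_smul, hx, map_smul, smul_smul, smul_eq_mul]
        congr 1
        ring
    have h3 : (aeval (nrm c τ (g₁ ^ m)) (S.map (algebraMap K₀ K))) u ∈ U := by
      have hstab : ∀ x ∈ U, nrm c τ (g₁ ^ m) x ∈ U :=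
        fun x hx => U.smul_mem _ (hst _ hmΔ x hx)
      have h4 := aeval_restrict hstab (S.map (algebraMap K₀ K)) ⟨u, hu⟩
      rw [h4]
      exact Submodule.coe_mem _
    rw [h1 u] at h3
    by_contra hne
    apply hvU
    have h5 : algebraMap K₀ K κ * B (j v) u ≠ 0 :=
      mul_ne_zero ((_root_.map_ne_zero _).2 hκ) hne
    have h6 := U.smul_mem (algebraMap K₀ K κ * B (j v) u)⁻¹ h3
    rwa [smul_smul, inv_mul_cancel₀ h5, one_smul] at h6
  -- the orthogonal complement
  let P : Submodule K T :=
    { carrier := {t | ∀ u ∈ U, B t u = 0}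
      add_mem' := by
        intro x y hx hy u hu
        rw [map_add, LinearMap.add_apply, hx u hu, hy u hu, add_zero]
      zero_mem' := fun u _ => by rw [map_zero, LinearMap.zero_apply]
      smul_mem' := by
        intro c x hx u hu
        rw [map_smul, LinearMap.smul_apply, hx u hu, smul_zero] }
  have hP := keyA P (by
    intro g hg x hx u hu
    have h3 : u = τ g (τ g⁻¹ u) := by
      rw [← Module.End.mul_apply, ← map_mul, mul_inv_cancel, map_one, Module.End.one_apply]
    rw [h3, hF.act, hx _ (hst _ (Δ.inv_mem hg) u hu), mul_zero]) hB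
  rw [eq_bot_iff]
  intro u hu
  rw [Submodule.mem_bot]
  apply hF.nondeg u
  intro y
  rw [hF.symm u y]
  have hy : y ∈ P := by rw [hP]; exact Submodule.mem_top
  exact hy u hu

end

end Pool.Agent.Y134.MR
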