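import Pool.Agent.Y134.TF.Defs
import Pool.Agent.Y130.MM.Pub

/-!
# Motives of even weight with a rational structure: definitions
-/

set_option autoImplicit false

namespace Pool.Agent.Y134.MR

open Polynomial Pool.Agent.Y134.TF

variable {K₀ K T E : Type} [Field K₀] [Field K] [Algebra K₀ K] [AddCommGroup T] [Module K T]
  [AddCommGroup E] [Module K E] {Γ G : Type} [Group Γ] [Group G]

/-- `T` is a motive of the even weight `2 m` (a representation `τ` of the motivic Galois group `G`)
with a symmetric polarization `B` with values in `1(-2m)` (the group acts on `1(-1)` through `q`),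
and `T`, with the form `B` and with the action of the Galois group `Γ` twisted by `q ^ (- m)`, comes
from the representation `F` of `Γ` over the field `K₀`; `j` is the inclusion. -/
structure IsEvenMotive (ι : Γ →* G) (q : G →* Kˣ) (m : ℕ) (τ : Representation K G T)
    (B : T →ₗ[K] T →ₗ[K] K) (F : FormRep K₀ Γ) (j : F.V →+ T) : Prop where
  symm : ∀ x y, B x y = B y x
  nondeg : ∀ x, (∀ y, B x y = 0) → x = 0
  equiv : ∀ g x y, B (τ g x) (τ g y) = (q g : K) ^ (2 * m) * B x y
  smul : ∀ (a : K₀) (v : F.V), j (a • v) = algebraMap K₀ K a • j v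
  span : Submodule.span K (Set.range j) = ⊤
  rank : Module.finrank K T = Module.finrank K₀ F.V
  form : ∀ x y, B (j x) (j y) = algebraMap K₀ K (F.form x y)
  equivariant : ∀ g v, τ (ι g) (j v) = (q (ι g) : K) ^ m • j (F.rep g v)

/-- `T` is irreducible under all subgroups of finite index of the Galois group `Γ`. -/
def StronglyIrreducible (ι : Γ →* G) (τ : Representation K G T) : Prop :=
  ∀ Δ : Subgroup Γ, Δ.FiniteIndex → ∀ U : Submodule K T, (∀ s ∈ Δ, ∀ x ∈ U, τ (ι s) x ∈ U) →
    U = ⊥ ∨ U = ⊤

/-- A number in `K` which is the image of an element of the group `H`. -/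
def valSet (H : Subgroup Kˣ) : Set K := {x | ∃ u ∈ H, (u : K) = x}

/-- The character `q ^ j` has infinite order on the Galois group, for `j ≠ 0`. -/
def InfiniteOrder (ι : Γ →* G) (q : G →* Kˣ) : Prop :=
  ∀ j : ℤ, j ≠ 0 → ∀ Δ : Subgroup Γ, Δ.FiniteIndex → ∃ s ∈ Δ, q (ι s) ^ j ≠ 1

/-- The Galois group maps onto all finite quotients of the motivic Galois group. -/
def OntoQuotients (ι : Γ →* G) : Prop :=
  ∀ Δ : Subgroup G, Δ.FiniteIndex → ∀ g : G, ∃ s : Γ, ∃ d ∈ Δ, g = ι s * d

/-- All Tate classes in the Tate twists of `E` are motivated, without an extension of the base field: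
a vector on which the Galois group acts through `q ^ j` is a vector on which the motivic Galois group
acts through `q ^ j`. -/
def SameTateClasses (ι : Γ →* G) (q : G →* Kˣ) (σ : Representation K G E) : Prop :=
  ∀ (j : ℤ) (w : E), (∀ s, σ (ι s) w = ((q (ι s) ^ j : Kˣ) : K) • w) →
    ∀ g, σ g w = ((q g ^ j : Kˣ) : K) • w

end Pool.Agent.Y134.MR
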