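import Pool.Agent.Y134.MR.Core

/-!
# Isolated roots and isolated eigenvectors
-/

set_option autoImplicit false

namespace Pool.Agent.Y134.MR

open Polynomial Module Pool.Agent.Y134.Two Pool.Agent.Y130 Pool.Agent.Y134.TF Pool.Agent.Y134.TH
  Pool.Agent.Y130.MT Pool.Agent.H204R3.GP TensorProduct

section
variable {K₀ K T V : Type} [Field K₀] [Field K] [IsAlgClosed K] [Algebra K₀ K] [AddCommGroup T]
  [Module K T] [FiniteDimensional K T] [AddCommGroup V] [Module K₀ V] [FiniteDimensional K₀ V]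
  {Γ : Type} [Group Γ]
  {c : Γ → K} {B : T →ₗ[K] T →ₗ[K] K} {τ : Representation K Γ T}
  {b : V →ₗ[K₀] V →ₗ[K₀] K₀} {ρ : Representation K₀ Γ V} {j : V →+ T}

omit [IsAlgClosed K] [FiniteDimensional K T] in
theorem charpoly_nrm (h : IsRat c B τ b ρ j) (g : Γ) [FiniteDimensional K T] :
    (nrm c τ g).charpoly = ((ρ g).charpoly).map (algebraMap K₀ K) := by
  obtain ⟨D, hD⟩ := h.exists_basis
  let e : K ⊗[K₀] V ≃ₗ[K] T := ((finBasis K₀ V).baseChange K).equiv D (Equiv.refl _)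
  have he0 : ∀ i, e (1 ⊗ₜ finBasis K₀ V i) = D i := by
    intro i
    have h1 := ((finBasis K₀ V).baseChange K).equiv_apply i D (Equiv.refl _)
    rw [Basis.baseChange_apply] at h1
    exact h1
  have he : ∀ v, e (1 ⊗ₜ v) = j v := by
    intro v
    rw [j_sum h v]
    have h1 : (1 : K) ⊗ₜ[K₀] v
        = ∑ i, algebraMap K₀ K ((finBasis K₀ V).repr v i) • ((1 : K) ⊗ₜ[K₀] finBasis K₀ V i) := by
      conv_lhs => rw [← (finBasis K₀ V).sum_repr v]
      rw [tmul_sum]
      refine Finset.sum_congr rfl fun i _ => ?_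
      rw [tmul_smul, algebraMap_smul]
    rw [h1, map_sum]
    refine Finset.sum_congr rfl fun i _ => ?_
    rw [map_smul, he0, hD]
  have h1 : nrm c τ g = e.conj ((ρ g).baseChange K) := by
    refine D.ext fun i => ?_
    rw [LinearEquiv.conj_apply_apply, ← he0, LinearEquiv.symm_apply_apply,
      LinearMap.baseChange_tmul, he, he, nrm_j h]
  rw [h1, LinearEquiv.charpoly_conj, LinearMap.charpoly_baseChange]

lemma pow_nrm (c : Γ → K) (τ : Representation K Γ T) (g : Γ) (β : K) (n : ℕ) (x : T) :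
    ((nrm c τ g - ((c g)⁻¹ * β) • (1 : Module.End K T)) ^ n) x
      = (((c g)⁻¹) ^ n) • ((τ g - β • (1 : Module.End K T)) ^ n) x := by
  have h1 : nrm c τ g - ((c g)⁻¹ * β) • (1 : Module.End K T)
      = ((c g)⁻¹) • (τ g - β • (1 : Module.End K T)) := by
    rw [smul_sub, smul_smul]
    rfl
  rw [h1, _root_.smul_pow, LinearMap.smul_apply]

/-- The eigenvalues on `T`. -/
lemma aeval_eig (h : IsRat c B τ b ρ j) {g : Γ} {β : K} {x : T} (hx0 : x ≠ 0)
    (hx : τ g x = β • x) : aeval ((c g)⁻¹ * β) (ρ g).charpoly = 0 := by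
  rw [← eval_map_algebraMap, ← charpoly_nrm h g]
  have h1 : Module.End.HasEigenvalue (nrm c τ g) ((c g)⁻¹ * β) := by
    refine Module.End.hasEigenvalue_of_hasEigenvector (x := x) ⟨?_, hx0⟩
    rw [Module.End.mem_eigenspace_iff]
    change (c g)⁻¹ • τ g x = _
    rw [hx, smul_smul]
  exact (Module.End.hasEigenvalue_iff_isRoot_charpoly _ _).1 h1

/-- A simple isolated root of the characteristic polynomial gives an isolated eigenvector. -/
theorem isolated_of_simple (h : IsRat c B τ b ρ j) {g₁ : Γ} {H : Subgroup Kˣ} {a : K}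
    (ha : IsolatedRoot (ρ g₁).charpoly ((fun u : Kˣ => (u : K)) '' (H : Set Kˣ)) a)
    (hs : aeval a (derivative (ρ g₁).charpoly) ≠ 0) :
    ∃ v, IsolatedEigenvector (τ g₁) ((c g₁) ^ 2) H (c g₁ * a) v := by
  classical
  have hχ : c g₁ ≠ 0 := h.unit g₁
  set Ψ : Module.End K T := nrm c τ g₁ with hΨ
  have hcp : Ψ.charpoly = (ρ g₁).charpoly.map (algebraMap K₀ K) := by
    rw [hΨ, charpoly_nrm h g₁]
  have heig : Module.End.HasEigenvalue Ψ a := by
    rw [Module.End.hasEigenvalue_iff_isRoot_charpoly, hcp, IsRoot.def, eval_map_algebraMap]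
    exact ha.root
  obtain ⟨v, hv⟩ := heig.exists_hasEigenvector
  have hactv : τ g₁ v = (c g₁ * a) • v := by
    have h3 : (c g₁)⁻¹ • τ g₁ v = a • v := hv.apply_eq_smul
    rw [mul_smul, ← h3, smul_smul, mul_inv_cancel₀ hχ, one_smul]
  -- the multiplicity
  have hmult : finrank K (Ψ.maxGenEigenspace a) ≤ 1 := by
    rw [LinearMap.finrank_maxGenEigenspace_eq, hcp]
    by_contra h1
    have h2 := (Polynomial.one_lt_rootMultiplicity_iff_isRoot
      ((LinearMap.charpoly_monic (ρ g₁)).map (algebraMap K₀ K)).ne_zero).1 (not_le.1 h1)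
    apply hs
    have h3 := h2.2
    rw [derivative_map, IsRoot.def, eval_map_algebraMap] at h3
    exact h3
  have hgrp : ∀ u ∈ H, u ∈ mulGrp ((fun u : Kˣ => (u : K)) '' (H : Set Kˣ)) :=
    fun u hu => Subgroup.subset_closure ⟨u, hu, rfl⟩
  have hratio : ∀ z : K, aeval z (ρ g₁).charpoly = 0 → ∀ n : ℕ, 0 < n → z ^ n = a ^ n → z = a :=
    fun z hz n hn hza => ha.indep z hz n hn 1 (one_mem _) (by rw [hza, Units.val_one, one_mul])
  have hE : ∀ β, IsEig (τ g₁) β → aeval ((c g₁)⁻¹ * β) (ρ g₁).charpoly = 0 := by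
    rintro β ⟨x, hx0, hx⟩
    exact aeval_eig h hx0 hx
  have hun : ∀ β : K, (c g₁)⁻¹ * β = a → β = c g₁ * a := by
    intro β hβ
    rw [← hβ, mul_inv_cancel_left₀ hχ]
  refine ⟨v, hv.2, hactv, ?_, ?_, ?_⟩
  · -- simple
    intro β hβ x hgen
    by_cases hx0 : x = 0
    · exact ⟨0, by rw [hx0, zero_smul]⟩
    have hgenβ := hgen
    rw [Module.End.mem_maxGenEigenspace] at hgenβ
    -- `β` is an eigenvalue
    have hβe : IsEig (τ g₁) β := by
      have hmin := Nat.find_spec hgenβ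
      have hk0 : Nat.find hgenβ ≠ 0 := by
        intro h0
        rw [h0, pow_zero, Module.End.one_apply] at hmin
        exact hx0 hmin
      obtain ⟨k, hk⟩ := Nat.exists_eq_succ_of_ne_zero hk0
      refine ⟨((τ g₁ - β • (1 : Module.End K T)) ^ k) x, ?_, ?_⟩
      · intro h0
        have := Nat.find_min' hgenβ h0
        omega
      · rw [hk, pow_succ', Module.End.mul_apply, LinearMap.sub_apply, LinearMap.smul_apply,
          Module.End.one_apply, sub_eq_zero] at hmin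
        exact hmin
    have hβa : β = c g₁ * a := by
      obtain ⟨n, hn, hnn⟩ := hβ
      apply hun
      refine hratio _ (hE β hβe) n hn ?_
      rw [mul_pow, hnn, mul_pow, ← mul_assoc, ← mul_pow, inv_mul_cancel₀ hχ, one_pow, one_mul]
    have hxΨ : x ∈ Ψ.maxGenEigenspace a := by
      obtain ⟨n, hn⟩ := hgenβ
      rw [Module.End.mem_maxGenEigenspace]
      refine ⟨n, ?_⟩
      have h3 : a = (c g₁)⁻¹ * β := by rw [hβa, inv_mul_cancel_left₀ hχ]
      rw [h3, hΨ, pow_nrm, hn, smul_zero]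
    have hvΨ : v ∈ Ψ.maxGenEigenspace a := by
      rw [Module.End.mem_maxGenEigenspace]
      refine ⟨1, ?_⟩
      rw [pow_one, LinearMap.sub_apply, LinearMap.smul_apply, Module.End.one_apply, sub_eq_zero]
      exact hv.apply_eq_smul
    have hle : Submodule.span K {v} ≤ Ψ.maxGenEigenspace a := by
      rw [Submodule.span_singleton_le_iff_mem]
      exact hvΨ
    have heq : Submodule.span K {v} = Ψ.maxGenEigenspace a := by
      refine Submodule.eq_of_le_of_finrank_le hle ?_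
      rw [finrank_span_singleton hv.2]
      exact hmult
    rw [← heq] at hxΨ
    obtain ⟨r, hr⟩ := Submodule.mem_span_singleton.1 hxΨ
    exact ⟨r, hr.symm⟩
  · -- rel
    intro β γ δ hβ hγ hδ hr
    obtain ⟨n, hn, hnn⟩ := hr
    have h3 : UpTo (a * ((c g₁)⁻¹ * δ)) (((c g₁)⁻¹ * β) * ((c g₁)⁻¹ * γ)) := by
      refine ⟨n, hn, ?_⟩
      have h4 : a * ((c g₁)⁻¹ * δ) = ((c g₁)⁻¹ * (c g₁)⁻¹) * (c g₁ * a * δ) := by
        field_simp
      have h5 : ((c g₁)⁻¹ * β) * ((c g₁)⁻¹ * γ) = ((c g₁)⁻¹ * (c g₁)⁻¹) * (β * γ) := by ring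
      rw [h4, h5, mul_pow, hnn, ← mul_pow]
    rcases ha.rel _ _ _ (hE β hβ) (hE γ hγ) (hE δ hδ) h3 with h4 | h4 | h4
    · left
      rw [hun β h4]
      exact ⟨1, one_pos, rfl⟩
    · right; left
      rw [hun γ h4]
      exact ⟨1, one_pos, rfl⟩
    · right; right
      obtain ⟨n, hn, hnn⟩ := h4
      refine ⟨n, hn, ?_⟩
      have h5 : c g₁ * a * δ = (c g₁) ^ 2 * (a * ((c g₁)⁻¹ * δ)) := by
        field_simp
      rw [h5, mul_pow, hnn, one_pow, mul_one]
  · -- indep
    intro β hβ n hn u hu hun'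
    have h3 : ((c g₁)⁻¹ * β) ^ n = u * a ^ n := by
      rw [mul_pow, hun', mul_pow]
      have h4 : ((c g₁)⁻¹) ^ n * (c g₁) ^ n = 1 := by
        rw [← mul_pow, inv_mul_cancel₀ hχ, one_pow]
      linear_combination (u * a ^ n) * h4
    rw [hun β (ha.indep _ (hE β hβ) n hn u (hgrp u hu) h3)]
    exact ⟨1, one_pos, rfl⟩

end

end Pool.Agent.Y134.MR
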