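import Pool.Agent.Y134.MR.Defs
import Pool.Agent.Y134.MR.Iso
import Pool.Agent.Y130.MM.Final

/-!
# Motives of even weight with a good vector
-/

set_option autoImplicit false

namespace Pool.Agent.Y134.MR

open Polynomial Module Pool.Agent.Y134.Two Pool.Agent.Y130 Pool.Agent.Y134.TF Pool.Agent.Y134.TH
  Pool.Agent.Y130.MT Pool.Agent.Y130.MM Pool.Agent.H204R3.GP

section
variable {K₀ K T : Type} [Field K₀] [Field K] [Algebra K₀ K] [AddCommGroup T] [Module K T]
  {Γ G : Type} [Group Γ] [Group G] {ι : Γ →* G} {q : G →* Kˣ} {m : ℕ}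
  {τ : Representation K G T} {B : T →ₗ[K] T →ₗ[K] K} {F : FormRep K₀ Γ} {j : F.V →+ T}

/-- The normalizing factor. -/
def fac (ι : Γ →* G) (q : G →* Kˣ) (m : ℕ) (g : Γ) : K := (q (ι g) : K) ^ m

theorem isRat (h : IsEvenMotive ι q m τ B F j) :
    IsRat (fac ι q m) B (τ.comp ι) F.form F.rep j where
  unit := fun g => pow_ne_zero _ (Units.ne_zero _)
  smul := h.smul
  span := h.span
  rank := h.rank
  form := h.form
  equivariant := h.equivariant

theorem formOn (h : IsEvenMotive ι q m τ B F j) : FormOn (fac ι q m) B (τ.comp ι) where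
  symm := h.symm
  nondeg := h.nondeg
  act := by
    intro g x y
    change B (τ (ι g) x) (τ (ι g) y) = ((q (ι g) : K) ^ m) ^ 2 * B x y
    rw [h.equiv, ← pow_mul, mul_comm m 2]

theorem stronglyIrreducible (h : IsEvenMotive ι q m τ B F j) {g : Γ} {v : F.V}
    (hv : GoodVec F.rep F.form g v) : StronglyIrreducible ι τ := fun Δ hΔ U hU =>
  irred_of_good (isRat h) (formOn h) hv Δ hΔ U hU

theorem one_lt (h : IsEvenMotive ι q m τ B F j) {g : Γ} {v : F.V}
    (hv : GoodVec F.rep F.form g v) : (⊤ : Submodule K T) ≠ ⊥ := by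
  intro h0
  have h1 : j v = 0 := by
    have : j v ∈ (⊤ : Submodule K T) := Submodule.mem_top
    rw [h0] at this
    exact (Submodule.mem_bot K).1 this
  have h2 := hv.vv
  apply h2
  apply (algebraMap K₀ K).injective
  rw [← h.form, h1, map_zero, map_zero]

/-- A motive of even weight with a good vector and an isolated root is a motive with isolated
eigenvalues. -/
theorem isolatedMotive [IsAlgClosed K] [FiniteDimensional K T]
    (h : IsEvenMotive ι q m τ B F j) {g : Γ} {v : F.V} (hv : GoodVec F.rep F.form g v)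
    {g₁ : Γ} {H : Γ → Subgroup Kˣ} {a : K}
    (ha : IsolatedRoot (F.rep g₁).charpoly (valSet (H g₁)) a)
    (hs : aeval a (derivative (F.rep g₁).charpoly) ≠ 0) (hH : ∀ s, q (ι s) ∈ H s) :
    IsolatedMotive ι q (2 * m) τ B (fun _ : Unit => (⊤ : Submodule K T)) id ⊤ H where
  symm := fun x y => by rw [pow_mul, neg_one_sq, one_pow, one_mul]; exact h.symm x y
  nondeg := h.nondeg
  equiv := h.equiv
  sup := iSup_const
  ne := fun _ => one_lt h hv
  star_star := fun _ => rfl
  orth := fun c d hd => absurd rfl hd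
  index := inferInstance
  stable := fun _ _ _ _ _ => Submodule.mem_top
  irreducible := fun _ Δ hΔ P _ hP => stronglyIrreducible h hv Δ hΔ P hP
  tate := hH
  isolated := fun _ => by
    right
    have hset : (fun u : Kˣ => (u : K)) '' (H g₁ : Set Kˣ) = valSet (H g₁) := rfl
    rw [← hset] at ha
    obtain ⟨w, hw⟩ := isolated_of_simple (isRat h) ha hs
    refine ⟨g₁, fac ι q m g₁ * a, w, Submodule.mem_top, ?_⟩
    have h1 : (fac ι q m g₁ : K) ^ 2 = (q (ι g₁) : K) ^ (2 * m) := by
      change ((q (ι g₁) : K) ^ m) ^ 2 = _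
      rw [← pow_mul, mul_comm m 2]
    rw [h1] at hw
    exact hw
  det := fun c hc => absurd rfl hc

end

section
variable {K E : Type} [Field K] [AddCommGroup E] [Module K E] {Γ G : Type} [Group Γ] [Group G]
  {ι : Γ →* G} {q : G →* Kˣ} {σ : Representation K G E}

theorem same_of_motivated (hι : OntoQuotients ι) (h : TateMotivated ι q σ) :
    SameTateClasses ι q σ := by
  intro j w hw g
  obtain ⟨Δ, hΔ, h1⟩ := h j w ⟨⊤, inferInstance, fun s _ => hw s⟩
  obtain ⟨s, d, hd, rfl⟩ := hι Δ hΔ g
  rw [map_mul, Module.End.mul_apply, h1 d hd, map_smul, hw s, smul_smul, map_mul, mul_zpow,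
    Units.val_mul, mul_comm]

end

section
variable {K V T : Type} [Field K] [CharZero K] [IsAlgClosed K] [AddCommGroup V] [Module K V]
  [AddCommGroup T] [Module K T] [FiniteDimensional K T] {Γ G : Type} [Group Γ] [Group G]
  {ι : Γ →* G} {q : G →* Kˣ} {w : ℕ} {ρ : Representation K G V} {τ : Representation K G T}
  {B : T →ₗ[K] T →ₗ[K] K} {C : Type} [Finite C] {U : C → Submodule K T} {star : C → C}
  {G₀ : Subgroup G} {H : Γ → Subgroup Kˣ}

theorem motivated_iff (hV : SummandOfCopies τ ρ) (hM : IsolatedMotive ι q w τ B U star G₀ H)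
    {I : Type} {E : I → Type} [∀ i, AddCommGroup (E i)] [∀ i, Module K (E i)]
    [∀ i, FiniteDimensional K (E i)] {σ : ∀ i, Representation K G (E i)}
    (hN : ∀ i, EigenvaluesIn ι H (σ i)) :
    (∀ n i, TateMotivated ι q (homRep n ρ (σ i))) ↔ ∀ i, TateMotivated ι q (σ i) :=
  ⟨fun h i => of_homRep (h 0 i), fun h n i => main_V hV hM (hN i) (h i) n⟩

theorem motivated_trivial (hV : SummandOfCopies τ ρ)
    (hM : IsolatedMotive ι q w τ B U star G₀ H) (hq : InfiniteOrder ι q) (n : ℕ) :
    TateMotivated ι q (homRep n ρ (Representation.trivial K G K)) := by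
  refine main_V hV hM (fun F β hβ => ?_) (fun j e he => ?_) n
  · obtain ⟨x, hx0, hx⟩ := hβ
    refine ⟨1, Subgroup.one_mem _, ?_⟩
    have h1 : x = β * x := hx
    rw [Units.val_one]
    exact mul_right_cancel₀ hx0 (by rw [← h1, one_mul])
  · obtain ⟨Δ, hΔ, h⟩ := he
    by_cases hj : j = 0
    · refine ⟨⊤, inferInstance, fun g _ => ?_⟩
      rw [hj, zpow_zero, Units.val_one, one_smul]
      rfl
    · obtain ⟨s, hs, hs1⟩ := hq j hj Δ hΔ
      have h1 : e = ((q (ι s) ^ j : Kˣ) : K) * e := h s hs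
      have h2 : e = 0 := by
        by_contra h0
        apply hs1
        apply Units.ext
        rw [Units.val_one]
        exact mul_right_cancel₀ h0 (by rw [← h1, one_mul])
      refine ⟨⊤, inferInstance, fun g _ => ?_⟩
      rw [h2, map_zero, smul_zero]

end

end Pool.Agent.Y134.MR
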