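import Pool.Agent.Y134.MR.Main

/-!
# Motives of even weight with two Frobenius polynomials
-/

set_option autoImplicit false

namespace Pool.Agent.Y134.MR

open Polynomial Module Pool.Agent.Y134.Two Pool.Agent.Y130 Pool.Agent.Y134.TF Pool.Agent.Y134.TH
  Pool.Agent.Y130.MT Pool.Agent.Y130.MM Pool.Agent.H204R3.GP

section
variable {K₀ K T : Type} [Field K₀] [CharZero K₀] [Field K] [IsAlgClosed K] [Algebra K₀ K]
  [AddCommGroup T] [Module K T]
  {Γ G : Type} [Group Γ] [Group G] {ι : Γ →* G} {q : G →* Kˣ} {m : ℕ}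
  {τ : Representation K G T} {B : T →ₗ[K] T →ₗ[K] K} {F : FormRep K₀ Γ} {j : F.V →+ T}
  {g₁ g₂ : Γ} {ε₁ : K₀} {R₁ : K₀[X]} {ε₂ : K₀} {R₂ : K₀[X]}

theorem twoElements (h : IsEvenMotive ι q m τ B F j)
    (h2 : TwoPolynomials K F.rep g₁ g₂ ε₁ R₁ ε₂ R₂) :
    TwoElements K F.rep F.form g₁ g₂ ε₁ R₁ ε₂ R₂ where
  nondeg := fun _ hx => (isRat h).form_zero (formOn h) hx
  symm := (isRat h).form_symm (formOn h)
  inv := (isRat h).form_inv (formOn h)
  sign := h2.sign
  charpoly₁ := h2.charpoly₁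
  irreducible := h2.irreducible
  degree := h2.degree
  ratio := h2.ratio
  charpoly₂ := h2.charpoly₂
  eval_one := h2.eval_one
  eval_neg := h2.eval_neg
  square := h2.square

theorem good_of_two (h : IsEvenMotive ι q m τ B F j)
    (h2 : TwoPolynomials K F.rep g₁ g₂ ε₁ R₁ ε₂ R₂) : ∃ v, GoodVec F.rep F.form g₁ v := by
  have hE := twoElements h h2
  obtain ⟨v, hv0, hv, hvv⟩ := exists_vector hE.nondeg (hE.inv g₁) hE.sign hE.charpoly₁
    (not_root hE.irreducible hE.degree ε₁)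
  exact ⟨v, hvv, fun n hn => hE.exists_proj hvv hv hn, fun H hH => hE.span_top hvv hv hH⟩

theorem simple_of_two (h2 : TwoPolynomials K F.rep g₁ g₂ ε₁ R₁ ε₂ R₂) {a : K}
    (ha : aeval a ((X - C ε₁) * R₁) = 0) :
    aeval a (derivative (F.rep g₁).charpoly) ≠ 0 := by
  have hsep : ((X - C ε₁) * R₁).Separable := by
    refine (separable_X_sub_C).mul h2.irreducible.separable ?_
    exact ((irreducible_X_sub_C ε₁).coprime_iff_not_dvd).2
      (fun hd => not_root h2.irreducible h2.degree ε₁ (dvd_iff_isRoot.1 hd))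
  rw [h2.charpoly₁]
  intro h0
  obtain ⟨u, w, huw⟩ := hsep
  have h1 : aeval a u * aeval a ((X - C ε₁) * R₁)
      + aeval a w * aeval a (derivative ((X - C ε₁) * R₁)) = 1 := by
    rw [← map_mul (aeval a) u, ← map_mul (aeval a) w, ← map_add, huw, map_one]
  rw [ha, h0, mul_zero, mul_zero, add_zero] at h1
  exact zero_ne_one h1

end

end Pool.Agent.Y134.MR
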